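import Pool.Agent.Lib.helper21.Vass

set_option autoImplicit false
set_option linter.unusedSimpArgs false
set_option linter.unusedVariables false

namespace Pool.Agent.Results.MP_767d8d_lc.Neq

open Relation Sum Pool.Agent.Lib.helper21.Vass

/-- all nonterminals of `u` belong to component `i` -/
def In {N T : Type} (c : N → Bool) (i : Bool) (u : List (N ⊕ T)) : Prop := ∀ A, inl A ∈ u → c A = i

/-- two-component even matrix grammar; `c A = false` means `A ∈ N₁`, `c A = true` means `A ∈ N₂` -/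
structure EM (N T : Type) where
  c : N → Bool
  P0 : Set (List T)
  P1 : Set (List (N ⊕ T) × List (N ⊕ T))
  P2 : Set ((N × List (N ⊕ T)) × N × List (N ⊕ T))
  f0 : P0.Finite
  f1 : P1.Finite
  f2 : P2.Finite
  h1 : ∀ r ∈ P1, In c false r.1 ∧ In c true r.2 ∧ (∃ A, inl A ∈ r.1) ∧ ∃ A, inl A ∈ r.2
  h2 : ∀ r ∈ P2, c r.1.1 = false ∧ c r.2.1 = true ∧ In c false r.1.2 ∧ In c true r.2.2

def EM.Start {N T : Type} (G : EM N T) (x : List (N ⊕ T)) : Prop :=
  (∃ v ∈ G.P0, x = v.map inr) ∨ ∃ r ∈ G.P1, x = r.1 ++ r.2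

def EM.Step {N T : Type} (G : EM N T) (j : ℕ) (x y : List (N ⊕ T)) : Prop :=
  ∃ A₁ v₁ A₂ v₂ u₁ w₁ u₂ w₂, ((A₁, v₁), A₂, v₂) ∈ G.P2 ∧ In G.c false (u₁ ++ w₁) ∧
    In G.c true (u₂ ++ w₂) ∧ x = u₁ ++ inl A₁ :: w₁ ++ (u₂ ++ inl A₂ :: w₂) ∧
    y = u₁ ++ v₁ ++ w₁ ++ (u₂ ++ v₂ ++ w₂) ∧ (j = 1 → inl A₁ ∉ u₁ ∧ inl A₂ ∉ u₂)

def EM.L {N T : Type} (G : EM N T) (j : ℕ) : Set (List T) :=
  {w | ∃ x, G.Start x ∧ ReflTransGen (G.Step j) x (w.map inr)}

def ev {β σ : Type} (x : List (β × (σ → σ))) : σ → σ := fun s => x.foldl (fun s y => y.2 s) s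

abbrev An {N T : Type} (G : EM N T) (σ : Type) := (N ⊕ T) × (σ → σ)

theorem pumping {N T σ : Type} [Finite N] [Finite T] [Finite σ] (δ : σ → T → σ) (G : EM N T)
    (w : ℕ → List T)
    (h : ∀ i, w i ∈ G.L 0) : ∃ i j, i < j ∧ ∃ D : Multiset T, w j = w i + D ∧ ∀ k : ℕ,
      ∃ v ∈ G.L 0, (∀ s, v.foldl δ s = (w i).foldl δ s) ∧ v = w i + k • D := by
  let an : T → (An G σ) := fun t => (inr t, fun s => δ s t)
  have inj : Function.Injective an := fun _ _ e => inr.inj (congrArg Prod.fst e)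
  have e0 : ∀ v : List T, ev (v.map an) = fun s => v.foldl δ s := fun v => by
    unfold ev; simp only [List.foldl_map, an]
  let Tr : Set (Multiset (An G σ) × Multiset (An G σ)) := {t | ∃ r ∈ G.P2, ∃ v₁ v₂ : List (An G σ), v₁.map (·.1) = r.1.2 ∧
    v₂.map (·.1) = r.2.2 ∧ t = ({(inl r.1.1, ev v₁), (inl r.2.1, ev v₂)}, (v₁ : Multiset (An G σ)) + v₂)}
  have fm : ∀ x, {v : List (An G σ) | v.map (·.1) = x}.Finite := fun x =>
    (List.finite_length_eq (An G σ) x.length).subset fun v h => by simp [← h.out]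
  have fT : Tr.Finite := by
    refine (G.f2.biUnion fun r _ => ((fm r.1.2).prod (fm r.2.2)).image fun v =>
      (({(inl r.1.1, ev v.1), (inl r.2.1, ev v.2)} : Multiset (An G σ)), (v.1 : Multiset (An G σ)) + v.2)).subset ?_
    exact fun _ ⟨r, a, v₁, v₂, b, c, d⟩ => Set.mem_iUnion₂.2 ⟨r, a, (v₁, v₂), ⟨b, c⟩, d.symm⟩
  have fS : {x | G.Start x}.Finite := ((G.f0.image _).union (G.f1.image fun r => r.1 ++ r.2)).subset
    fun _ => Or.imp (fun ⟨v, a, b⟩ => ⟨v, a, b.symm⟩) fun ⟨v, a, b⟩ => ⟨v, a, b.symm⟩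
  have cm : ∀ (u₁ w₁ u₂ w₂ x y : List (An G σ)), ((u₁ ++ x ++ w₁ ++ (u₂ ++ y ++ w₂) : List (An G σ)) : Multiset (An G σ)) =
      ↑(u₁ ++ w₁ ++ u₂ ++ w₂) + ((x : Multiset (An G σ)) + y) := fun _ _ _ _ _ _ => by
    simp only [← Multiset.coe_add]; abel
  have ce : ∀ (u₁ w₁ u₂ w₂ x y : List (An G σ)) A B, ev (u₁ ++ x ++ w₁ ++ (u₂ ++ y ++ w₂)) =
      ev (u₁ ++ [(A, ev x)] ++ w₁ ++ (u₂ ++ [(B, ev y)] ++ w₂)) := fun _ _ _ _ _ _ _ _ => by
    unfold ev; simp
  have k1 : ∀ i, ∃ x : List (An G σ), G.Start (x.map (·.1)) ∧ (ev x = fun s => (w i).foldl δ s) ∧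
      ReflTransGen (St Tr) x ↑((w i).map an) := fun i => by
    obtain ⟨x, a, b⟩ := h i
    suffices ∃ x' : List (An G σ), x'.map (·.1) = x ∧ (ev x' = fun s => (w i).foldl δ s) ∧
      ReflTransGen (St Tr) x' ↑((w i).map an) from
      let ⟨y, c, d⟩ := this; ⟨y, c ▸ a, d⟩
    clear a
    induction b using ReflTransGen.head_induction_on with
    | refl => exact ⟨_, by simp [an], e0 _, .refl⟩
    | head q _ ih =>
      obtain ⟨A₁, v₁, A₂, v₂, u₁, w₁, u₂, w₂, q, -, -, rfl, rfl, -⟩ := q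
      simp only [List.map_eq_append_iff] at ih
      obtain ⟨_, ⟨_, _, rfl, ⟨_, w₁, rfl, ⟨u₁, v₁, rfl, rfl, rfl⟩, rfl⟩, _, w₂, rfl, ⟨u₂, v₂, rfl, rfl, rfl⟩,
        rfl⟩, a, b⟩ := ih
      exact ⟨_, by simp, (ce ..).symm.trans a, .head ⟨_, ⟨_, q, v₁, v₂, rfl, rfl, rfl⟩, _, cm .., cm ..⟩ b⟩
  choose x k1 k2 k3 using k1
  obtain ⟨i, j, l, D, e, q⟩ := vass fT ((fS.biUnion fun x _ => fm x).image (↑))
    (fun i => ⟨x i, Set.mem_biUnion (k1 i) rfl, rfl⟩) k3
  have : CanLift (An G σ) T an fun y => ∃ t, an t = y := ⟨fun _ => id⟩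
  lift D to Multiset T using fun y a => (List.mem_map.1 (Multiset.mem_coe.1
    (e ▸ Multiset.mem_add.2 (.inr a) : y ∈ (↑((w j).map an) : Multiset (An G σ))))).imp fun _ => And.right
  refine ⟨i, j, l, D, Multiset.map_injective inj (by simpa using e), fun k => ?_⟩
  have : ∀ U, ReflTransGen (St Tr) (x i) U → ∃ y : List (An G σ), ↑y = U ∧ ev y = ev (x i) ∧
      (∃ y₁ y₂ : List (An G σ), y = y₁ ++ y₂ ∧ In G.c false (y₁.map (·.1)) ∧ In G.c true (y₂.map (·.1))) ∧
      ReflTransGen (G.Step 0) ((x i).map (·.1)) (y.map (·.1)) := fun U q => by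
    induction q with
    | refl =>
      refine ⟨_, rfl, rfl, ?_, .refl⟩
      obtain ⟨v, -, a⟩ | ⟨r, a, b⟩ := k1 i
      · exact ⟨x i, [], by simp, by simp [a, In], by simp [In]⟩
      · obtain ⟨y₁, y₂, b, c, d⟩ := List.map_eq_append_iff.1 b
        exact ⟨y₁, y₂, b, c ▸ (G.h1 r a).1, d ▸ (G.h1 r a).2.1⟩
    | tail _ q ih =>
      obtain ⟨_, rfl, a1, ⟨y₁, y₂, rfl, a2, a3⟩, a4⟩ := ih
      obtain ⟨_, ⟨⟨⟨A₁, _⟩, A₂, _⟩, q, v₁, v₂, rfl, rfl, rfl⟩, W, b, rfl⟩ := q
      obtain ⟨g1, g2, g3, g4⟩ := G.h2 _ q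
      have m : ∀ z, z = (inl A₁, ev v₁) ∨ z = (inl A₂, ev v₂) → z ∈ y₁ ∨ z ∈ y₂ := fun z c => by
        rw [← List.mem_append, ← Multiset.mem_coe, b]; rcases c with rfl | rfl <;> simp
      obtain ⟨u₁, w₁, rfl⟩ := List.append_of_mem ((m _ (.inl rfl)).resolve_right fun c => by
        simp [a3 _ (List.mem_map_of_mem c)] at g1)
      obtain ⟨u₂, w₂, rfl⟩ := List.append_of_mem ((m _ (.inr rfl)).resolve_left fun c => by
        simp [a2 _ (List.mem_map_of_mem c)] at g2)
      obtain rfl : W = ↑(u₁ ++ w₁ ++ u₂ ++ w₂) := add_right_cancel (b.symm.trans (by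
        simpa using cm u₁ w₁ u₂ w₂ [_] [_]))
      simp only [In, List.map_append, List.map_cons, List.mem_append, List.mem_cons, or_imp,
        forall_and] at a2 a3 g3 g4
      refine ⟨_, cm .., (ce ..).trans (by simpa using a1), ⟨_, _, rfl, ?_, ?_⟩, a4.tail
        ⟨A₁, _, A₂, _, u₁.map (·.1), w₁.map (·.1), u₂.map (·.1), w₂.map (·.1), q, ?_, ?_, by simp,
          by simp, nofun⟩⟩ <;>
      simp only [In, List.map_append, List.mem_append, or_imp, forall_and] <;> tauto
  obtain ⟨y, a, b, -, c⟩ := this _ (q k)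
  have a' : (y : Multiset (An G σ)) = (↑(w i) + k • D).map an := by simpa [Multiset.map_nsmul] using a
  lift y to List T using fun z h => by
    obtain ⟨t, -, e⟩ := Multiset.mem_map.1 (a' ▸ Multiset.mem_coe.2 h); exact ⟨t, e⟩
  exact ⟨y, ⟨_, k1 i, by simpa [an, Function.comp_def] using c⟩, congrFun ((e0 y).symm.trans (b.trans (k2 i))),
    Multiset.map_injective inj a'⟩

inductive Nt : Type
  | r | wa | ws | f | X | E
  deriving DecidableEq, Fintype

open Nt List

def cell (q : List Bool) : List (Nt ⊕ Bool) := q.flatMap fun c => [inr c, inl X]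

def cp : Nt → Bool
  | X | E => true
  | _ => false

def G : EM Nt Bool where
  c := cp
  P0 := ∅
  P1 := {([inl r], cell [true, false] ++ [inl E])}
  P2 := {((r, [inl wa]), X, [inr true]), ((r, [inl ws]), X, [inr false]),
    ((f, [inl f]), X, [inr true]), ((f, []), X, [inr false]),
    ((wa, [inl r]), E, cell [true, true] ++ [inl E]), ((ws, [inl r]), E, cell [false] ++ [inl E]),
    ((ws, [inl f]), E, cell [false])}
  f0 := Set.finite_empty
  f1 := Set.toFinite _
  f2 := Set.toFinite _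
  h1 := by simp [In, cell, cp]
  h2 := by simp [In, cell, cp]

def δ : Option (Option Bool) → Bool → Option (Option Bool)
  | none, _ => none
  | some none, c => some (some c)
  | some (some c), c' => if c = c' then some none else none

theorem dead (w : List Bool) : w.foldl δ none = none := by induction w <;> simp [*, δ]

theorem mc {q : List Bool} {A : Nt} (h : inl A ∈ cell q) : A = X := by
  simp [cell] at h; exact h.2

theorem fo {β : Type} {a : β} {x y z w : List β} (h : a ∉ x) (h' : a ∉ y)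
    (e : x ++ a :: z = y ++ a :: w) : x = y ∧ z = w := by
  induction x generalizing y with
  | nil => cases y; exacts [by simpa using e, (h' (by simp at e; simp [e.1])).elim]
  | cons b x ih =>
    cases y with
    | nil => exact (h (by simp at e; simp [e.1])).elim
    | cons c y =>
      obtain ⟨rfl, e'⟩ := cons.inj e
      exact (ih (not_mem_of_not_mem_cons h) (not_mem_of_not_mem_cons h') e').imp_left (congrArg _)

def J : Option Nt → ℕ → ℕ → List Bool → Prop
  | some r, A, m, q => ∃ i j, q = replicate i true ++ false :: replicate (2 * j) true ∧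
      i + j = 2 ^ m ∧ A + 2 = 2 * 2 ^ m + 2 * j
  | some wa, A, m, q => ∃ i j, q = replicate i true ++ false :: replicate (2 * j) true ∧
      i + j + 1 = 2 ^ m ∧ A = 2 * 2 ^ m + 2 * j
  | some ws, A, m, q => q = replicate (2 ^ m) true ∧ A + 2 = 2 * 2 ^ m
  | some f, A, m, q => ∃ i, q = replicate i true ++ [false] ∧ A + 2 * i + 2 = 4 * 2 ^ m
  | _, A, m, _ => A + 2 = 2 * 2 ^ m

theorem sound {w : List Bool} (h : w ∈ G.L 1) (h' : w.foldl δ (some none) = some none) :
    ∃ m, w.count false = 2 * m ∧ w.count true + 2 = 2 * 2 ^ m := by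
  obtain ⟨_, ⟨_, ⟨⟩, -⟩ | ⟨_, rfl, rfl⟩, h⟩ := h
  have : ∀ x, ReflTransGen (G.Step 1) ([inl r] ++ (cell [true, false] ++ [inl E])) x →
      ∃ (s : Option Nt) (d q : List Bool) (e : List (Nt ⊕ Bool)), x = s.toList.map inl ++
      (d.map inr ++ cell q ++ e) ∧ (e = [inl E] ∨ e = []) ∧ (∀ A ∈ s, cp A = false) ∧
      (d.foldl δ (some none) = none ∨ d.foldl δ (some none) = some none ∧
        ∃ m, d.count false = 2 * m ∧ J s (d.count true) m q) := fun x h => by
    induction h with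
    | refl => exact ⟨r, [], _, _, rfl, .inl rfl, by simp [cp], .inr ⟨rfl, 0, rfl, 1, 0, rfl, rfl, rfl⟩⟩
    | tail _ h ih =>
      obtain ⟨s, d, q, e, rfl, a1, a2, a3⟩ := ih
      obtain ⟨A₁, v₁, A₂, v₂, u₁, w₁, u₂, w₂, p, b1, -, b2, rfl, b3⟩ := h
      obtain ⟨c1, c2, -⟩ := G.h2 _ p
      have n : inl A₁ ∉ d.map inr ++ cell q ++ e := fun t => by
        rcases a1 with rfl | rfl <;> simp at t
        · rcases t with t | rfl
          · cases mc t; cases c1
          · cases c1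
        · cases mc t; cases c1
      obtain _ | s := s
      · exact (n (by simp at b2; simp [b2])).elim
      obtain ⟨rfl, rfl, b4⟩ : u₁ = [] ∧ A₁ = s ∧
          d.map inr ++ cell q ++ e = (w₁ ++ u₂) ++ inl A₂ :: w₂ := by
        cases u₁ with
        | nil => simpa [eq_comm] using b2
        | cons => exact (n (by simp at b2; simp [b2.2])).elim
      have n' : inl A₂ ∉ w₁ ++ u₂ := fun t => (mem_append.1 t).elim
        (fun t => by cases (b1 _ t).symm.trans c2) (b3 rfl).2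
      have rd : ∀ c', A₂ = X → v₂ = [inr c'] → ∃ c q', q = c :: q' ∧ [] ++ v₁ ++ w₁ ++ (u₂ ++ v₂ ++ w₂) =
          v₁ ++ ((d ++ [c, c']).map inr ++ cell q' ++ e) := by
        rintro c' rfl rfl
        obtain _ | ⟨c, q⟩ := q
        · have : inl X ∈ d.map inr ++ cell [] ++ e := by simp [b4]
          rcases a1 with rfl | rfl <;> simp [cell] at this
        obtain ⟨e1, e2⟩ := fo (x := d.map inr ++ [inr c]) (z := cell q ++ e) (w := w₂) (by simp) n'
          (by simpa [cell] using b4)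
        exact ⟨c, q, rfl, by simpa [← e2] using congrArg (· ++ inr c' :: w₂) e1.symm⟩
      have wr : ∀ z e', A₂ = E → v₂ = cell z ++ e' → [] ++ v₁ ++ w₁ ++ (u₂ ++ v₂ ++ w₂) =
          v₁ ++ (d.map inr ++ cell (q ++ z) ++ e') := by
        rintro z e' rfl rfl
        replace n : inl E ∉ d.map inr ++ cell q := by simpa using fun t => nomatch mc t
        obtain rfl | rfl := a1
        · obtain ⟨e1, rfl⟩ := fo n n' b4
          simpa [cell] using congrArg (· ++ (cell z ++ e')) e1.symm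
        · exact (n (by simp at b4; simp [b4])).elim
      have g : ∀ {c c' : Bool} {P : Prop}, (d.foldl δ (some none) = some none → c = c' → P) →
          (d ++ [c, c']).foldl δ (some none) = none ∨
          (d ++ [c, c']).foldl δ (some none) = some none ∧ P := fun {c c' P} h => by
        obtain a | ⟨a, -⟩ := a3
        · simp [a, δ]
        · by_cases t : c = c' <;> simp [a, δ, t, h]
      obtain ⟨⟨⟩⟩ | ⟨⟨⟩⟩ | ⟨⟨⟩⟩ | ⟨⟨⟩⟩ | ⟨⟨⟩⟩ | ⟨⟨⟩⟩ | ⟨⟨⟩⟩ := p
      · obtain ⟨c, q, rfl, t⟩ := rd _ rfl rfl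
        refine ⟨wa, _, _, _, t, a1, by simp [cp], g ?_⟩
        rintro a rfl
        obtain ⟨-, m, k1, _ | i, j, ⟨⟩, k2⟩ := a3.resolve_left (by simp [a])
        exact ⟨m, by simpa, i, j, rfl, by simp; omega⟩
      · obtain ⟨c, q, rfl, t⟩ := rd _ rfl rfl
        refine ⟨ws, _, _, _, t, a1, by simp [cp], g ?_⟩
        rintro a rfl
        obtain ⟨-, m, k1, _ | i, j, ⟨⟩, k2⟩ := a3.resolve_left (by simp [a])
        exact ⟨m + 1, by simp; omega, by congr 1; omega, by simp; omega⟩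
      · obtain ⟨c, q, rfl, t⟩ := rd _ rfl rfl
        refine ⟨f, _, _, _, t, a1, by simp [cp], g ?_⟩
        rintro a rfl
        obtain ⟨-, m, k1, _ | i, ⟨⟩, k2⟩ := a3.resolve_left (by simp [a])
        exact ⟨m, by simpa, i, rfl, by simp; omega⟩
      · obtain ⟨c, q, rfl, t⟩ := rd _ rfl rfl
        refine ⟨none, _, _, _, t, a1, by simp [cp], g ?_⟩
        rintro a rfl
        obtain ⟨-, m, k1, _ | i, ⟨⟩, k2⟩ := a3.resolve_left (by simp [a])
        exact ⟨m + 1, by simp; omega, by simp [J]; omega⟩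
      · refine ⟨r, _, _, _, wr _ _ rfl rfl, .inl rfl, by simp [cp], a3.imp_right (And.imp_right ?_)⟩
        rintro ⟨m, k1, i, j, rfl, k2⟩
        exact ⟨m, k1, i, j + 1, by simp [mul_add, replicate_add], by omega⟩
      · refine ⟨r, _, _, _, wr _ _ rfl rfl, .inl rfl, by simp [cp], a3.imp_right (And.imp_right ?_)⟩
        rintro ⟨m, k1, rfl, k2⟩
        exact ⟨m, k1, _, 0, rfl, rfl, k2⟩
      · refine ⟨f, _, _, _, wr [false] [] rfl (by simp), .inr rfl, by simp [cp],
          a3.imp_right (And.imp_right ?_)⟩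
        rintro ⟨m, k1, rfl, k2⟩
        exact ⟨m, k1, _, rfl, by omega⟩
  obtain ⟨s, d, q, e, a, a1, -, a3⟩ := this _ h
  have n : ∀ A, inl A ∉ s.toList.map inl ++ (d.map inr ++ cell q ++ e) := a ▸ by simp
  obtain rfl : s = none := by cases s; rfl; exact (n _ (by simp; exact .inl rfl)).elim
  obtain rfl : q = [] := by cases q; rfl; exact (n X (by simp [cell])).elim
  obtain rfl : e = [] := a1.resolve_left (by rintro rfl; exact n E (by simp))
  obtain rfl : w = d := map_injective_iff.2 inr_injective (by simpa [cell] using a)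
  exact (a3.resolve_left (by simp [h'])).2

theorem complete (n : ℕ) : ∃ w ∈ G.L 1, w.foldl δ (some none) = some none ∧
    w.count false = 2 * (n + 2) := by
  have i1 : ∀ (d q : List Bool) e, (e = [inl E] ∨ e = []) → In cp true (d.map inr ++ cell q ++ e) := by
    rintro d q _ (rfl | rfl) A t <;> simp at t
    · rcases t with t | rfl
      · cases mc t; rfl
      · rfl
    · cases mc t; rfl
  have rd : ∀ {s v c} (d q : List Bool) e, ((s, v), X, [inr c]) ∈ G.P2 → (e = [inl E] ∨ e = []) →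
      G.Step 1 (inl s :: (d.map inr ++ cell (c :: q) ++ e))
        (v ++ ((d ++ [c, c]).map inr ++ cell q ++ e)) := fun {s v c} d q e p a =>
    ⟨_, _, _, _, [], [], d.map inr ++ [inr c], cell q ++ e, p, by simp [In],
      by simpa [G] using i1 (d ++ [c]) q e a, by simp [cell], by simp, by simp⟩
  have wr : ∀ {s v z e} (d q : List Bool), ((s, v), E, cell z ++ e) ∈ G.P2 →
      G.Step 1 (inl s :: (d.map inr ++ cell q ++ [inl E]))
        (v ++ (d.map inr ++ cell (q ++ z) ++ e)) := fun d q p =>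
    ⟨_, _, _, _, [], [], d.map inr ++ cell q, [], p, by simp [In], i1 d q _ (.inr rfl), by simp,
      by simp [cell], fun _ => by simpa using fun t => nomatch mc t⟩
  let ok := fun (d : List Bool) m => d.foldl δ (some none) = some none ∧ d.count false = 2 * m
  have k1 : ∀ i j d m, ok d m → ∃ d' j', ok d' (m + 1) ∧ ReflTransGen (G.Step 1)
      (inl r :: (d.map inr ++ cell (replicate i true ++ false :: replicate j true) ++ [inl E]))
      (inl ws :: (d'.map inr ++ cell (replicate j' true) ++ [inl E])) := fun i => by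
    induction i with
    | zero =>
      exact fun j d m a => ⟨d ++ [false, false], j, by simp [ok, a.1, a.2, δ]; omega,
        .single (rd (v := [inl ws]) d _ _ (by simp [G]) (.inl rfl))⟩
    | succ i ih =>
      intro j d m a
      obtain ⟨d', j', b, c⟩ := ih (j + 2) (d ++ [true, true]) m (by simp [ok, a.1, a.2, δ])
      exact ⟨d', j', b, .head (rd (v := [inl wa]) d _ _ (by simp [G]) (.inl rfl)) (.head
        (wr (v := [inl r]) (z := [true, true]) _ _ (by simp [G]; tauto)) (by simpa [replicate_add] using c))⟩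
  have k2 : ∀ m, ∃ d j, ok d (m + 1) ∧ ReflTransGen (G.Step 1) ([inl r] ++ (cell [true, false] ++ [inl E]))
      (inl ws :: (d.map inr ++ cell (replicate j true) ++ [inl E])) := fun m => by
    induction m with
    | zero => exact k1 1 0 [] 0 ⟨rfl, rfl⟩
    | succ m ih =>
      obtain ⟨d, j, a, b⟩ := ih
      obtain ⟨d', j', a', b'⟩ := k1 j 0 d _ a
      exact ⟨d', j', a', (b.tail (wr (v := [inl r]) (z := [false]) _ _ (by simp [G]))).trans b'⟩
  have k3 : ∀ i d m, ok d m → ∃ d', ok d' (m + 1) ∧ ReflTransGen (G.Step 1)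
      (inl f :: (d.map inr ++ cell (replicate i true ++ [false]) ++ [])) (d'.map inr) := fun i => by
    induction i with
    | zero =>
      exact fun d m a => ⟨d ++ [false, false], by simp [ok, a.1, a.2, δ]; omega, .single (by
        simpa [cell] using rd (s := f) (v := []) (c := false) d [] _ (by simp [G]) (.inr rfl))⟩
    | succ i ih =>
      intro d m a
      obtain ⟨d', b, c⟩ := ih (d ++ [true, true]) m (by simp [ok, a.1, a.2, δ])
      exact ⟨d', b, .head (rd (v := [inl f]) d _ _ (by simp [G]) (.inr rfl)) c⟩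
  obtain ⟨d, j, a, b⟩ := k2 n
  obtain ⟨d', a', b'⟩ := k3 j d _ a
  exact ⟨d', ⟨_, .inr ⟨_, rfl, rfl⟩,
    (b.tail (wr (v := [inl f]) (z := [false]) _ _ (by simp [G]))).trans b'⟩, a'⟩

theorem result : ∃ (N : Type) (_ : Finite N) (G : EM N Bool), ∀ (N' T : Type) [Finite N'] [Finite T]
    (ι : Bool → T), Function.Injective ι → ∀ G' : EM N' T, G'.L 0 ≠ List.map ι '' G.L 1 := by
  refine ⟨_, inferInstance, G, fun _ T _ _ ι inj G' e => ?_⟩
  classical
  obtain ⟨ρ, hρ⟩ := inj.hasLeftInverse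
  choose w w1 w2 w3 using complete
  obtain ⟨i, j, l, D, a, b⟩ := pumping (fun s t => δ s (ρ t)) G' (fun n => (w n).map ι)
    fun n => e.ge ⟨_, w1 n, rfl⟩
  have c : ∀ (v : List Bool) t, Multiset.count (ι t) ↑(v.map ι) = v.count t := fun v t => by
    simp [count_map_of_injective _ _ inj]
  have k : ∀ k : ℕ, (w i).count true + k * D.count (ι true) + 2 = 2 * 2 ^ (i + 2 + k * (j - i)) :=
    fun k => by
      obtain ⟨_, b1, b2, b3⟩ := b k
      obtain ⟨v, b0, rfl⟩ := e.le b1
      obtain ⟨m, m1, m2⟩ := sound b0 (by simpa [foldl_map, hρ _, w2] using b2 (some none))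
      have t1 := congrArg (Multiset.count (ι true)) b3
      have t2 := congrArg (Multiset.count (ι false)) b3
      have t3 := congrArg (Multiset.count (ι false)) a
      simp only [Multiset.count_add, Multiset.count_nsmul, c, w3, m1] at t1 t2 t3
      rw [show D.count (ι false) = 2 * (j - i) by omega, mul_left_comm] at t2
      rw [← t1, m2, show m = i + 2 + k * (j - i) by omega]
  have k0 := k 0
  have k1 := k 1
  have k2 := k 2
  simp only [zero_mul, add_zero, one_mul, pow_add _ (i + 2), two_mul (j - i), pow_add _ (j - i)] at k0 k1 k2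
  have : 2 ≤ 2 ^ (j - i) := Nat.le_self_pow (by omega) 2
  have : 0 < 2 ^ (i + 2) := by positivity
  generalize 2 ^ (j - i) = y at *
  generalize 2 ^ (i + 2) = x at *
  obtain ⟨y, rfl⟩ := Nat.exists_eq_add_of_le' ‹2 ≤ y›
  nlinarith [Nat.zero_le (x * y), Nat.zero_le (x * y * y)]

end Pool.Agent.Results.MP_767d8d_lc.Neq
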